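import Mathlib
import Pool.Agent.H488R3.Real

set_option autoImplicit false

namespace Pool.Agent.X297.G6

open Finset Filter Topology
open Pool.Agent.H488R3
open scoped Classical

variable {V W : Type} [Fintype V] [Fintype W]

omit [Fintype V] [Fintype W] in
lemma iso_apply {G : SimpleGraph V} {H : SimpleGraph W} (f : SimpleGraph.Copy G H) (v : V) :
    ((f.isoToSubgraph v : f.toSubgraph.verts) : W) = f v := rfl

omit [Fintype V] [Fintype W] in
lemma iso_transport {G : SimpleGraph V} {H : SimpleGraph W} {S T : H.Subgraph} (h : S = T)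
    (e : G ≃g S.coe) : ∃ e' : G ≃g T.coe, ∀ v, ((e' v : T.verts) : W) = (e v : S.verts) := by
  subst h
  exact ⟨e, fun _ => rfl⟩

/-- precomposition with an automorphism -/
def pre {G : SimpleGraph V} {H : SimpleGraph W} (f : SimpleGraph.Copy G H) (σ : G ≃g G) :
    SimpleGraph.Copy G H := f.comp σ.toCopy

omit [Fintype V] [Fintype W] in
lemma pre_apply {G : SimpleGraph V} {H : SimpleGraph W} (f : SimpleGraph.Copy G H) (σ : G ≃g G)
    (v : V) : pre f σ v = f (σ v) := rfl

omit [Fintype V] [Fintype W] in
lemma pre_toSubgraph {G : SimpleGraph V} {H : SimpleGraph W} (f : SimpleGraph.Copy G H)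
    (σ : G ≃g G) : (pre f σ).toSubgraph = f.toSubgraph := by
  unfold pre SimpleGraph.Copy.toSubgraph
  have : (f.comp σ.toCopy).toHom = f.toHom.comp σ.toHom := rfl
  rw [this, SimpleGraph.Subgraph.map_comp]
  simp

omit [Fintype V] [Fintype W] in
lemma exists_pre {G : SimpleGraph V} {H : SimpleGraph W} (f g : SimpleGraph.Copy G H)
    (h : g.toSubgraph = f.toSubgraph) : ∃ σ : G ≃g G, pre f σ = g := by
  obtain ⟨e', he'⟩ := iso_transport h g.isoToSubgraph
  refine ⟨e'.trans f.isoToSubgraph.symm, ?_⟩
  apply DFunLike.coe_injective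
  funext v
  rw [pre_apply]
  have h1 := iso_apply f ((e'.trans f.isoToSubgraph.symm) v)
  rw [← h1]
  have h2 : f.isoToSubgraph ((e'.trans f.isoToSubgraph.symm) v) = e' v := by
    simp
  rw [h2, he']
  exact iso_apply g v

omit [Fintype V] [Fintype W] in
lemma pre_injective {G : SimpleGraph V} {H : SimpleGraph W} (f : SimpleGraph.Copy G H) :
    Function.Injective (pre f) := by
  intro σ τ h
  apply DFunLike.coe_injective
  funext v
  have := congrArg (fun g : SimpleGraph.Copy G H => g v) h
  simp only [pre_apply] at this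
  exact f.injective this

/-- labelled copies versus unlabelled copies -/
theorem card_copy (G : SimpleGraph V) (H : SimpleGraph W) :
    Fintype.card (SimpleGraph.Copy G H) = H.copyCount G * Nat.card (G ≃g G) := by
  rw [SimpleGraph.copyCount_eq_card_image_copyToSubgraph]
  have h1 := card_eq_sum_card_image (SimpleGraph.Copy.toSubgraph (A := G) (B := H))
    (univ : Finset (SimpleGraph.Copy G H))
  rw [← card_univ, h1]
  rw [sum_const_nat (m := Nat.card (G ≃g G))]
  intro S hS
  simp only [mem_image, mem_univ, true_and] at hS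
  obtain ⟨f, rfl⟩ := hS
  have h2 : Nat.card (G ≃g G) = Nat.card {g : SimpleGraph.Copy G H // g.toSubgraph = f.toSubgraph} := by
    apply Nat.card_congr
    refine Equiv.ofBijective (fun σ => ⟨pre f σ, pre_toSubgraph f σ⟩) ⟨?_, ?_⟩
    · intro σ τ h
      exact pre_injective f (congrArg Subtype.val h)
    · rintro ⟨g, hg⟩
      obtain ⟨σ, hσ⟩ := exists_pre f g hg
      exact ⟨σ, Subtype.ext hσ⟩
  rw [h2, Nat.card_eq_fintype_card, Fintype.card_subtype]

/-- injective homomorphisms as functions -/
noncomputable def IM (G : SimpleGraph V) (H : SimpleGraph W) : Finset (V → W) :=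
  (HM G H).filter Function.Injective

theorem card_IM (G : SimpleGraph V) (H : SimpleGraph W) :
    (IM G H).card = H.copyCount G * Nat.card (G ≃g G) := by
  rw [← card_copy]
  symm
  have e : SimpleGraph.Copy G H ≃ {φ : V → W // φ ∈ IM G H} :=
    { toFun := fun f => ⟨f, by
        simp only [IM, mem_filter]
        exact ⟨mem_HM.2 (fun a b h => f.toHom.map_rel h), f.injective⟩⟩
      invFun := fun p => ⟨⟨p.1, fun {a b} h => mem_HM.1 (mem_filter.1 p.2).1 a b h⟩,
        (mem_filter.1 p.2).2⟩
      left_inv := fun f => by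
        apply DFunLike.coe_injective; rfl
      right_inv := fun p => by ext; rfl }
  rw [Fintype.card_congr e, Fintype.card_coe]

lemma IM_le_HM (G : SimpleGraph V) (H : SimpleGraph W) : (IM G H).card ≤ (HM G H).card :=
  card_le_card (filter_subset _ _)

lemma HM_bound (G : SimpleGraph V) (H : SimpleGraph W) :
    Fintype.card W * (HM G H).card ≤ Fintype.card W * (IM G H).card
      + Fintype.card V ^ 2 * Fintype.card W ^ Fintype.card V := by
  have h1 : HM G H ⊆ IM G H ∪ ((univ : Finset (V × V)).filter (fun p => p.1 ≠ p.2)).biUnion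
      (fun p => univ.filter (fun φ : V → W => φ p.1 = φ p.2)) := by
    intro φ hφ
    by_cases h : Function.Injective φ
    · exact mem_union_left _ (mem_filter.2 ⟨hφ, h⟩)
    · apply mem_union_right
      unfold Function.Injective at h
      push Not at h
      obtain ⟨a, b, hab, hn⟩ := h
      simp only [mem_biUnion, mem_filter, mem_univ, true_and]
      exact ⟨(a, b), hn, hab⟩
  have h2 := (card_le_card h1).trans (card_union_le _ _)
  have h3 : Fintype.card W * (((univ : Finset (V × V)).filter (fun p => p.1 ≠ p.2)).biUnion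
      (fun p => univ.filter (fun φ : V → W => φ p.1 = φ p.2))).card ≤
        Fintype.card V ^ 2 * Fintype.card W ^ Fintype.card V := by
    calc _ ≤ Fintype.card W * ∑ p ∈ (univ : Finset (V × V)).filter (fun p => p.1 ≠ p.2),
            (univ.filter (fun φ : V → W => φ p.1 = φ p.2)).card :=
          Nat.mul_le_mul_left _ card_biUnion_le
      _ = ∑ p ∈ (univ : Finset (V × V)).filter (fun p => p.1 ≠ p.2),
            Fintype.card W * (univ.filter (fun φ : V → W => φ p.1 = φ p.2)).card := by
          rw [mul_sum]
      _ ≤ ∑ p ∈ (univ : Finset (V × V)).filter (fun p => p.1 ≠ p.2),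
            Fintype.card W ^ Fintype.card V := by
          apply sum_le_sum
          intro p hp
          exact fiber_eq (mem_filter.1 hp).2
      _ ≤ ∑ p : V × V, Fintype.card W ^ Fintype.card V :=
          sum_le_sum_of_subset (filter_subset _ _)
      _ = _ := by
          rw [sum_const, smul_eq_mul, card_univ, Fintype.card_prod]; ring
  calc Fintype.card W * (HM G H).card ≤ Fintype.card W * ((IM G H).card + _) :=
        Nat.mul_le_mul_left _ h2
    _ ≤ _ := by rw [mul_add]; exact Nat.add_le_add_left h3 _

lemma HM_mono {G : SimpleGraph V} {H H' : SimpleGraph W} (h : H ≤ H') : HM G H ⊆ HM G H' := by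
  intro φ hφ
  rw [mem_HM] at hφ ⊢
  exact fun a b hab => h (hφ a b hab)

end Pool.Agent.X297.G6
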