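import Mathlib

set_option autoImplicit false

namespace Pool.Agent.X297.G6

open Finset Filter Topology
open scoped Classical

/-- `ex(n,e,G)`: the largest number of subgraphs isomorphic to `G` in a graph on `n` vertices with
at most `e` edges. -/
noncomputable def exN {V : Type} [Fintype V] (n e : ℕ) (G : SimpleGraph V) : ℕ :=
  sSup {k | ∃ H : SimpleGraph (Fin n), H.edgeSet.ncard ≤ e ∧ k = H.copyCount G}

/-- The sequence `(H_n)` is an asymptotic maximiser for `G` at density `β`. -/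
def AsympMax {V : Type} [Fintype V] (G : SimpleGraph V) (β : ℝ)
    (H : ∀ n : ℕ, SimpleGraph (Fin n)) : Prop :=
  (∃ C : ℝ, ∀ n : ℕ, 0 < n → |2 * ((H n).edgeSet.ncard : ℝ) / (n : ℝ) ^ 2 - β| ≤ C / n) ∧
  Asymptotics.IsEquivalent atTop (fun n : ℕ => ((H n).copyCount G : ℝ))
    (fun n : ℕ => (exN n ⌊β * (n : ℝ) ^ 2 / 2⌋₊ G : ℝ))

/-- The quasi-clique with `(a choose 2) + b` edges, for `b < a`: the vertices `0,…,a-1` form a
clique, the vertex `a` is adjacent to `0,…,b-1`, the others are isolated. -/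
def quasiClique (n a b : ℕ) : SimpleGraph (Fin n) where
  Adj i j := i ≠ j ∧ (((i : ℕ) < a ∧ (j : ℕ) < a) ∨ ((i : ℕ) = a ∧ (j : ℕ) < b) ∨
    ((j : ℕ) = a ∧ (i : ℕ) < b))
  symm := ⟨fun i j h => ⟨h.1.symm, by
    rcases h.2 with h | h | h
    · exact Or.inl ⟨h.2, h.1⟩
    · exact Or.inr (Or.inr h)
    · exact Or.inr (Or.inl h)⟩⟩
  loopless := ⟨fun _ h => h.1 rfl⟩

/-- The graph with classes `Y = c⁻¹(0)`, `R = c⁻¹(1)`, `B = c⁻¹(2)`: `Y` and `R` are cliques, `B`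
is independent, every vertex of `R` is adjacent to every other vertex. -/
def classGraph {n : ℕ} (c : Fin n → Fin 3) : SimpleGraph (Fin n) where
  Adj i j := i ≠ j ∧ (c i = 1 ∨ c j = 1 ∨ (c i = 0 ∧ c j = 0))
  symm := ⟨fun i j h => ⟨h.1.symm, by tauto⟩⟩
  loopless := ⟨fun _ h => h.1 rfl⟩

/-- The proportions of the classes `Y, R, B` in `T_n^e(q)`. -/
noncomputable def prop (β q : ℝ) : Fin 3 → ℝ :=
  ![Real.sqrt β * q, 1 - Real.sqrt (1 - β * (1 - q ^ 2)),
    Real.sqrt (1 - β * (1 - q ^ 2)) - Real.sqrt β * q]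

/-- `(H_n)` is a sequence of graphs `T_n^e(q)`, `e = βn²/2`, each class size being rounded up or
down. -/
def IsTSeq (β q : ℝ) (H : ∀ n : ℕ, SimpleGraph (Fin n)) : Prop :=
  ∀ n : ℕ, 0 < n → ∃ c : Fin n → Fin 3, H n = classGraph c ∧
    ∀ k, |((univ.filter (fun i => c i = k)).card : ℝ) - prop β q k * n| < 1

/-- `(K_n^{e_n})` is the sequence of quasi-cliques with `e_n = (a_n choose 2) + b_n` edges -/
def IsQCSeq (a b : ℕ → ℕ) : Prop :=
  ∀ n : ℕ, 0 < n → b n < a n ∧ (a n).choose 2 + b n ≤ n.choose 2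

end Pool.Agent.X297.G6
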