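import Mathlib
import Pool.Agent.X297.G6.Count
import Pool.Agent.X297.G6.Defs
import Pool.Agent.Results.MP_35cd17_co.TGraphs

set_option autoImplicit false

namespace Pool.Agent.X297.G6

open Finset Filter Topology
open Pool.Agent.H488R3
open Pool.Agent.Results.MP_35cd17_co.TGraphs
open scoped Classical

variable {V : Type} [Fintype V]

omit [Fintype V] in
lemma exSet_bdd (n e : ℕ) (G : SimpleGraph V) :
    BddAbove {k | ∃ H : SimpleGraph (Fin n), H.edgeSet.ncard ≤ e ∧ k = H.copyCount G} := by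
  have h : (Set.range (fun H : SimpleGraph (Fin n) => H.copyCount G)).Finite := Set.finite_range _
  refine h.bddAbove.mono ?_
  rintro k ⟨H, _, rfl⟩
  exact ⟨H, rfl⟩

lemma exN_mem (n e : ℕ) (G : SimpleGraph V) :
    ∃ H : SimpleGraph (Fin n), H.edgeSet.ncard ≤ e ∧ exN n e G = H.copyCount G := by
  have := Nat.sSup_mem (s := {k | ∃ H : SimpleGraph (Fin n), H.edgeSet.ncard ≤ e ∧ k = H.copyCount G})
    ⟨_, ⟨⊥, by simp, rfl⟩⟩ (exSet_bdd n e G)
  exact this

lemma le_exN {n e : ℕ} (G : SimpleGraph V) (H : SimpleGraph (Fin n)) (h : H.edgeSet.ncard ≤ e) :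
    H.copyCount G ≤ exN n e G :=
  le_csSup (exSet_bdd n e G) ⟨H, h, rfl⟩

/-- number of automorphisms -/
noncomputable def autN (G : SimpleGraph V) : ℝ := (Nat.card (G ≃g G) : ℝ)

lemma autN_pos (G : SimpleGraph V) : 0 < autN G := by
  unfold autN
  have : Nonempty (G ≃g G) := ⟨SimpleGraph.Iso.refl⟩
  have hf : Finite (G ≃g G) := by
    apply Finite.of_injective (fun e : G ≃g G => (e : V → V))
    intro e f h
    exact DFunLike.coe_injective h
  exact_mod_cast Nat.card_pos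

lemma copy_mul (G : SimpleGraph V) {n : ℕ} (H : SimpleGraph (Fin n)) :
    (H.copyCount G : ℝ) * autN G = ((IM G H).card : ℝ) := by
  rw [card_IM]; unfold autN; push_cast; rfl

lemma exists_add_edges {n : ℕ} (H : SimpleGraph (Fin n)) (m : ℕ) (h1 : H.edgeSet.ncard ≤ m)
    (h2 : m ≤ n.choose 2) : ∃ H' : SimpleGraph (Fin n), H ≤ H' ∧ H'.edgeSet.ncard = m := by
  have e1 : H.edgeSet.ncard = H.edgeFinset.card := by
    rw [← SimpleGraph.coe_edgeFinset, Set.ncard_coe_finset]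
  have e2 : (⊤ : SimpleGraph (Fin n)).edgeFinset.card = n.choose 2 := by
    rw [SimpleGraph.card_edgeFinset_top_eq_card_choose_two, Fintype.card_fin]
  obtain ⟨u, hu1, hu2, hu3⟩ := Finset.exists_subsuperset_card_eq (n := m)
    (SimpleGraph.edgeFinset_mono (le_top : H ≤ ⊤)) (by rw [← e1]; exact h1) (by rw [e2]; exact h2)
  have hu : (SimpleGraph.fromEdgeSet (u : Set (Sym2 (Fin n)))).edgeSet = (u : Set (Sym2 (Fin n))) := by
    rw [SimpleGraph.edgeSet_fromEdgeSet]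
    ext e
    simp only [Set.mem_sdiff, Finset.mem_coe, and_iff_left_iff_imp]
    intro he hd
    have := hu2 he
    rw [SimpleGraph.mem_edgeFinset] at this
    exact (⊤ : SimpleGraph (Fin n)).not_isDiag_of_mem_edgeSet this hd
  refine ⟨SimpleGraph.fromEdgeSet (u : Set (Sym2 (Fin n))), ?_, ?_⟩
  · rw [← SimpleGraph.edgeSet_subset_edgeSet, hu]
    intro e he
    exact hu1 (by rw [SimpleGraph.mem_edgeFinset]; exact he)
  · rw [hu, Set.ncard_coe_finset, hu3]

lemma ex_mem_CC (G : SimpleGraph V) {n : ℕ} (hn : 0 < n) (m : ℕ) :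
    (2 * ((min m (n.choose 2) : ℕ) : ℝ) / (n : ℝ) ^ 2,
      (exN n m G : ℝ) * autN G / (n : ℝ) ^ Fintype.card V) ∈ CC G := by
  obtain ⟨H, h1, h2⟩ := exN_mem n m G
  have h3 : H.edgeSet.ncard ≤ n.choose 2 := by
    have e1 : H.edgeSet.ncard = H.edgeFinset.card := by
      rw [← SimpleGraph.coe_edgeFinset, Set.ncard_coe_finset]
    have e2 : (⊤ : SimpleGraph (Fin n)).edgeFinset.card = n.choose 2 := by
      rw [SimpleGraph.card_edgeFinset_top_eq_card_choose_two, Fintype.card_fin]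
    rw [e1, ← e2]
    exact card_le_card (SimpleGraph.edgeFinset_mono le_top)
  obtain ⟨H', h4, h5⟩ := exists_add_edges H (min m (n.choose 2)) (le_min h1 h3) (min_le_right _ _)
  have : Nonempty (Fin n) := ⟨⟨0, hn⟩⟩
  obtain ⟨w, hw, he, hle⟩ := mem_CC G H'
  rw [Fintype.card_fin] at he hle
  refine ⟨w, hw, ?_, ?_⟩
  · rw [he, ← h5, two_mul_edges]
  · refine le_trans ?_ hle
    rw [h2, copy_mul]
    apply div_le_div_of_nonneg_right _ (by positivity)
    exact_mod_cast (IM_le_HM G H).trans (card_le_card (HM_mono h4))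

lemma min_tendsto {β : ℝ} (h0 : 0 ≤ β) (h1 : β ≤ 1) :
    Tendsto (fun n : ℕ => 2 * ((min ⌊β * (n : ℝ) ^ 2 / 2⌋₊ (n.choose 2) : ℕ) : ℝ) / (n : ℝ) ^ 2)
      atTop (𝓝 β) := by
  have h2 : Tendsto (fun n : ℕ => β - 2 / (n : ℝ)) atTop (𝓝 β) := by
    have : Tendsto (fun n : ℕ => (2:ℝ) / (n : ℝ)) atTop (𝓝 0) :=
      tendsto_natCast_atTop_atTop.const_div_atTop _
    simpa using this.const_sub β
  refine tendsto_of_tendsto_of_tendsto_of_le_of_le' h2 tendsto_const_nhds ?_ ?_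
  · filter_upwards [eventually_gt_atTop 0] with n hn
    have hn' : (1:ℝ) ≤ n := by exact_mod_cast hn
    have hfl : β * (n : ℝ) ^ 2 / 2 < (⌊β * (n : ℝ) ^ 2 / 2⌋₊ : ℝ) + 1 := Nat.lt_floor_add_one _
    have hch : ((n.choose 2 : ℕ) : ℝ) = n * (n - 1) / 2 := Nat.cast_choose_two ℝ n
    rw [le_div_iff₀ (by positivity), Nat.cast_min, mul_min_of_nonneg _ _ (by norm_num : (0:ℝ) ≤ 2)]
    have e : (β - 2 / (n:ℝ)) * (n:ℝ) ^ 2 = β * (n:ℝ) ^ 2 - 2 * n := by field_simp
    rw [e]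
    apply le_min
    · linarith
    · rw [hch]
      nlinarith [mul_le_mul_of_nonneg_right h1 (sq_nonneg (n:ℝ))]
  · filter_upwards [eventually_gt_atTop 0] with n hn
    have hn' : (1:ℝ) ≤ n := by exact_mod_cast hn
    have hfl : (⌊β * (n : ℝ) ^ 2 / 2⌋₊ : ℝ) ≤ β * (n : ℝ) ^ 2 / 2 := Nat.floor_le (by positivity)
    rw [div_le_iff₀ (by positivity)]
    have : ((min ⌊β * (n : ℝ) ^ 2 / 2⌋₊ (n.choose 2) : ℕ) : ℝ) ≤ (⌊β * (n : ℝ) ^ 2 / 2⌋₊ : ℝ) := by
      exact_mod_cast min_le_left _ _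
    linarith

theorem ex_upper (G : SimpleGraph V) {β F : ℝ} (h0 : 0 ≤ β) (h1 : β ≤ 1)
    (hF : ∀ w ∈ KK, egy w = β → tval G w ≤ F) {ε : ℝ} (hε : 0 < ε) :
    ∀ᶠ n : ℕ in atTop,
      (exN n ⌊β * (n : ℝ) ^ 2 / 2⌋₊ G : ℝ) * autN G / (n : ℝ) ^ Fintype.card V < F + ε := by
  by_contra hc
  rw [not_eventually] at hc
  have h2 : ∃ᶠ n : ℕ in atTop,
      (2 * ((min ⌊β * (n : ℝ) ^ 2 / 2⌋₊ (n.choose 2) : ℕ) : ℝ) / (n : ℝ) ^ 2, F + ε) ∈ CC G := by
    refine (hc.and_eventually (eventually_gt_atTop 0)).mono ?_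
    rintro n ⟨hn1, hn2⟩
    push Not at hn1
    obtain ⟨w, hw, he, hle⟩ := ex_mem_CC G hn2 ⌊β * (n : ℝ) ^ 2 / 2⌋₊
    exact ⟨w, hw, he, hn1.trans hle⟩
  have h3 := (CC_closed G).mem_of_frequently_of_tendsto h2
    ((min_tendsto h0 h1).prodMk_nhds tendsto_const_nhds)
  obtain ⟨w, hw, he, hle⟩ := h3
  have := hF w hw he
  simp only at hle
  linarith

/-- `IM` and `HM` have the same densities -/
theorem IM_tendsto (G : SimpleGraph V) (H : ∀ n : ℕ, SimpleGraph (Fin n)) {h : ℝ}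
    (hH : Tendsto (fun n : ℕ => ((HM G (H n)).card : ℝ) / (n : ℝ) ^ Fintype.card V) atTop (𝓝 h)) :
    Tendsto (fun n : ℕ => ((H n).copyCount G : ℝ) * autN G / (n : ℝ) ^ Fintype.card V)
      atTop (𝓝 h) := by
  simp_rw [copy_mul]
  have h3 : Tendsto (fun n : ℕ => ((HM G (H n)).card : ℝ) / (n : ℝ) ^ Fintype.card V -
      (Fintype.card V : ℝ) ^ 2 / n) atTop (𝓝 h) := by
    have : Tendsto (fun n : ℕ => (Fintype.card V : ℝ) ^ 2 / n) atTop (𝓝 0) :=
      tendsto_natCast_atTop_atTop.const_div_atTop _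
    simpa using hH.sub this
  refine tendsto_of_tendsto_of_tendsto_of_le_of_le' h3 hH ?_ ?_
  · filter_upwards [eventually_gt_atTop 0] with N hN
    have hN' : (0:ℝ) < N := by exact_mod_cast hN
    have h4 := HM_bound G (H N)
    rw [Fintype.card_fin] at h4
    have h5 : (N:ℝ) * (HM G (H N)).card ≤ N * (IM G (H N)).card
        + (Fintype.card V : ℝ) ^ 2 * (N:ℝ) ^ Fintype.card V := by
      exact_mod_cast h4
    rw [sub_le_iff_le_add, div_le_iff₀ (by positivity)]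
    have h6 : (N:ℝ) * ((((IM G (H N)).card : ℝ) / (N:ℝ) ^ Fintype.card V +
          (Fintype.card V : ℝ) ^ 2 / N) * (N:ℝ) ^ Fintype.card V)
        = N * (IM G (H N)).card + (Fintype.card V : ℝ) ^ 2 * (N:ℝ) ^ Fintype.card V := by
      field_simp
    rw [← h6] at h5
    exact le_of_mul_le_mul_left h5 hN'
  · filter_upwards [eventually_gt_atTop 0] with N hN
    apply div_le_div_of_nonneg_right _ (by positivity)
    exact_mod_cast IM_le_HM G (H N)

/-- shrinking the weight -/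
noncomputable def shr (w : Cls → ℝ) (s : ℝ) : Cls → ℝ
  | .Y => (1 - s) * w .Y
  | .R => (1 - s) * w .R
  | .B => w .B + s * (w .Y + w .R)

lemma shr_mem {w : Cls → ℝ} (hw : w ∈ KK) {s : ℝ} (h0 : 0 ≤ s) (h1 : s ≤ 1) : shr w s ∈ KK := by
  obtain ⟨a, b⟩ := hw
  have hY := a .Y
  have hR := a .R
  have hB := a .B
  have h1' : 0 ≤ 1 - s := by linarith
  refine ⟨?_, ?_⟩
  · intro c
    cases c <;> simp only [shr] <;> positivity
  · simp only [shr]; linarith

lemma shr_cont (w : Cls → ℝ) : Continuous (shr w) := by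
  rw [continuous_pi_iff]
  intro c
  cases c <;> simp only [shr] <;> fun_prop

lemma shr_zero (w : Cls → ℝ) : shr w 0 = w := by
  funext c
  cases c <;> simp [shr]

lemma egy_shr {w : Cls → ℝ} (hw : w ∈ KK) (hpos : 0 < egy w) {s : ℝ} (h0 : 0 < s) (h1 : s ≤ 1) :
    egy (shr w s) < egy w := by
  obtain ⟨a, b⟩ := hw
  have hY := a .Y
  have hR := a .R
  have hB := a .B
  have e : egy w - egy (shr w s)
      = s * (2 * w .R * (1 - w .R) + s * w .R ^ 2 + (2 - s) * w .Y ^ 2) := by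
    have hb : w .B = 1 - w .R - w .Y := by linarith
    unfold egy
    simp only [shr]
    rw [hb]
    ring
  have h2 : 0 < 2 * w .R * (1 - w .R) + s * w .R ^ 2 + (2 - s) * w .Y ^ 2 := by
    rcases eq_or_lt_of_le hR with hR' | hR'
    · rw [← hR']
      have hY2 : 0 < w .Y ^ 2 := by
        have : egy w = w .Y ^ 2 := by unfold egy; rw [← hR']; ring
        rwa [this] at hpos
      have : 0 < 2 - s := by linarith
      nlinarith [mul_pos this hY2]
    · have g1 : 0 ≤ 1 - w .R := by linarith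
      have g2 : 0 ≤ 2 - s := by linarith
      positivity
  have := mul_pos h0 h2
  linarith

theorem ex_lower (G : SimpleGraph V) {β : ℝ} (h0 : 0 < β) {w : Cls → ℝ} (hw : w ∈ KK)
    (he : egy w = β) {ε : ℝ} (hε : 0 < ε) :
    ∀ᶠ n : ℕ in atTop, tval G w - ε <
      (exN n ⌊β * (n : ℝ) ^ 2 / 2⌋₊ G : ℝ) * autN G / (n : ℝ) ^ Fintype.card V := by
  have h1 : Tendsto (fun s => tval G (shr w s)) (𝓝[>] (0:ℝ)) (𝓝 (tval G w)) := by
    have : Continuous (fun s => tval G (shr w s)) := (tval_continuous G).comp (shr_cont w)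
    have h2 := this.tendsto 0
    simp only [shr_zero] at h2
    exact h2.mono_left nhdsWithin_le_nhds
  have h2 : ∀ᶠ s in 𝓝[>] (0:ℝ), tval G w - ε < tval G (shr w s) ∧ s ∈ Set.Ioo (0:ℝ) 1 :=
    (h1.eventually (lt_mem_nhds (by linarith))).and (Ioo_mem_nhdsGT (by norm_num))
  obtain ⟨s, hs1, hs⟩ := h2.exists
  have hm := shr_mem hw hs.1.le hs.2.le
  have hlt : egy (shr w s) < β := by
    rw [← he]
    exact egy_shr hw (by rw [he]; exact h0) hs.1 hs.2.le
  have h3 := egy_tendsto hm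
  have h4 := IM_tendsto G (fun n => HG (clN (shr w s) n)) (hom_tendsto hm G)
  filter_upwards [h3.eventually (gt_mem_nhds hlt), h4.eventually (lt_mem_nhds hs1),
    eventually_gt_atTop 0] with n hn1 hn2 hn3
  refine hn2.trans_le ?_
  have hn' : (0:ℝ) < n := by exact_mod_cast hn3
  apply div_le_div_of_nonneg_right _ (by positivity)
  apply mul_le_mul_of_nonneg_right _ (autN_pos G).le
  have h5 : (HG (clN (shr w s) n)).edgeSet.ncard ≤ ⌊β * (n : ℝ) ^ 2 / 2⌋₊ := by
    apply Nat.le_floor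
    rw [← two_mul_edges, div_lt_iff₀ (by positivity)] at hn1
    linarith
  exact_mod_cast le_exN G _ h5

/-- the order of magnitude of `ex(n, ⌊βn²/2⌋, G)` -/
theorem ex_tendsto (G : SimpleGraph V) {β F : ℝ} (h0 : 0 < β) (h1 : β ≤ 1)
    (hF : ∀ w ∈ KK, egy w = β → tval G w ≤ F) (hex : ∃ w ∈ KK, egy w = β ∧ tval G w = F) :
    Tendsto (fun n : ℕ => (exN n ⌊β * (n : ℝ) ^ 2 / 2⌋₊ G : ℝ) * autN G /
      (n : ℝ) ^ Fintype.card V) atTop (𝓝 F) := by
  obtain ⟨w, hw, he, hv⟩ := hex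
  rw [Metric.tendsto_nhds]
  intro ε hε
  filter_upwards [ex_upper G h0.le h1 hF hε, ex_lower G h0 hw he hε] with n hn1 hn2
  rw [Real.dist_eq, abs_lt]
  constructor <;> linarith

/-- criterion for being an asymptotic maximiser -/
theorem equiv_iff (G : SimpleGraph V) {β F : ℝ} (h0 : 0 < β) (h1 : β ≤ 1)
    (hF : ∀ w ∈ KK, egy w = β → tval G w ≤ F) (hex : ∃ w ∈ KK, egy w = β ∧ tval G w = F)
    (hF0 : 0 < F) (H : ∀ n : ℕ, SimpleGraph (Fin n)) {h : ℝ}
    (hH : Tendsto (fun n : ℕ => ((HM G (H n)).card : ℝ) / (n : ℝ) ^ Fintype.card V) atTop (𝓝 h)) :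
    Asymptotics.IsEquivalent atTop (fun n : ℕ => ((H n).copyCount G : ℝ))
      (fun n : ℕ => (exN n ⌊β * (n : ℝ) ^ 2 / 2⌋₊ G : ℝ)) ↔ h = F := by
  have e1 := IM_tendsto G H hH
  have e2 := ex_tendsto G h0 h1 hF hex
  have hA := autN_pos G
  constructor
  · intro heq
    have h3 : Asymptotics.IsEquivalent atTop
        (fun n : ℕ => ((H n).copyCount G : ℝ) * (autN G / (n : ℝ) ^ Fintype.card V))
        (fun n : ℕ => (exN n ⌊β * (n : ℝ) ^ 2 / 2⌋₊ G : ℝ) * (autN G / (n : ℝ) ^ Fintype.card V)) :=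
      heq.mul Asymptotics.IsEquivalent.refl
    simp only [← mul_div_assoc] at h3
    exact tendsto_nhds_unique (h3.tendsto_nhds e1) e2
  · intro hh
    rw [hh] at e1
    have h3 := e1.div e2 hF0.ne'
    rw [div_self hF0.ne'] at h3
    apply Asymptotics.isEquivalent_of_tendsto_one
    refine h3.congr' ?_
    filter_upwards [eventually_gt_atTop 0] with n hn
    have hn' : (0:ℝ) < n := by exact_mod_cast hn
    simp only [Pi.div_apply]
    have e3 : ∀ x y : ℝ, x * autN G / (n : ℝ) ^ Fintype.card V /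
        (y * autN G / (n : ℝ) ^ Fintype.card V) = x / y := by
      intro x y
      rw [mul_div_assoc x, mul_div_assoc y, mul_div_mul_right]
      positivity
    exact e3 _ _

end Pool.Agent.X297.G6
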