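import Mathlib
import Pool.Agent.H488R3.Real

set_option autoImplicit false

namespace Pool.Agent.X297.G6

open Finset Filter Topology
open Pool.Agent.H488R3
open scoped Classical

/-- The graph `G_6`: the triangle `0 1 2`, the vertex `3` adjacent to `0`, and the vertices `4`,
`5` adjacent to `3`. -/
def graphG6 : SimpleGraph (Fin 6) :=
  SimpleGraph.fromEdgeSet {s(0, 1), s(1, 2), s(0, 2), s(0, 3), s(3, 4), s(3, 5)}

lemma adj_iff (f : Fin 6 → Cls) :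
    (∀ a b, graphG6.Adj a b → Cls.ok (f a) (f b)) ↔
      Cls.ok (f 0) (f 1) ∧ Cls.ok (f 1) (f 2) ∧ Cls.ok (f 0) (f 2) ∧ Cls.ok (f 0) (f 3) ∧
        Cls.ok (f 3) (f 4) ∧ Cls.ok (f 3) (f 5) := by
  constructor
  · intro h
    refine ⟨h _ _ ?_, h _ _ ?_, h _ _ ?_, h _ _ ?_, h _ _ ?_, h _ _ ?_⟩ <;>
      simp [graphG6, SimpleGraph.fromEdgeSet_adj]
  · rintro ⟨h1, h2, h3, h4, h5, h6⟩ a b hab
    simp only [graphG6, SimpleGraph.fromEdgeSet_adj, Set.mem_insert_iff, Set.mem_singleton_iff,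
      Sym2.eq_iff] at hab
    obtain ⟨hab, -⟩ := hab
    rcases hab with h | h | h | h | h | h <;> rcases h with ⟨rfl, rfl⟩ | ⟨rfl, rfl⟩ <;>
      first | assumption | (apply Cls.ok_symm; assumption)

lemma sum_cons {n : ℕ} (F : (Fin (n + 1) → Cls) → ℝ) :
    ∑ c, F c = ∑ x : Cls, ∑ c : Fin n → Cls, F (Fin.cons x c) := by
  rw [← Fintype.sum_prod_type']
  exact (Equiv.sum_comp (Fin.consEquiv (fun _ : Fin (n + 1) => Cls)) F).symm

lemma sum_cls (F : Cls → ℝ) : ∑ x : Cls, F x = F .Y + F .R + F .B := by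
  have : (univ : Finset Cls) = {Cls.Y, Cls.R, Cls.B} := by
    ext c; cases c <;> simp
  rw [this]
  simp
  ring

noncomputable def kk (x y : Cls) : ℝ := if Cls.ok x y then 1 else 0

lemma sum_zero (F : (Fin 0 → Cls) → ℝ) : ∑ c, F c = F default := by
  simp [Subsingleton.elim _ (default : Fin 0 → Cls)]

lemma summand (w : Cls → ℝ) (c : Fin 6 → Cls) :
    (if (∀ a b, graphG6.Adj a b → Cls.ok (c a) (c b)) then ∏ v, w (c v) else 0) =
      kk (c 0) (c 1) * kk (c 1) (c 2) * kk (c 0) (c 2) * kk (c 0) (c 3) * kk (c 3) (c 4) *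
        kk (c 3) (c 5) * (w (c 0) * w (c 1) * w (c 2) * w (c 3) * w (c 4) * w (c 5)) := by
  simp only [adj_iff, Fin.prod_univ_six, kk]
  by_cases h1 : Cls.ok (c 0) (c 1) <;> by_cases h2 : Cls.ok (c 1) (c 2) <;>
    by_cases h3 : Cls.ok (c 0) (c 2) <;> by_cases h4 : Cls.ok (c 0) (c 3) <;>
    by_cases h5 : Cls.ok (c 3) (c 4) <;> by_cases h6 : Cls.ok (c 3) (c 5) <;>
    simp [h1, h2, h3, h4, h5, h6]

lemma six_sum (F : Cls → Cls → Cls → Cls → Cls → Cls → ℝ) :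
    ∑ c : Fin 6 → Cls, F (c 0) (c 1) (c 2) (c 3) (c 4) (c 5) =
      ∑ x0, ∑ x1, ∑ x2, ∑ x3, ∑ x4, ∑ x5, F x0 x1 x2 x3 x4 x5 := by
  rw [sum_cons]
  refine sum_congr rfl fun x0 _ => ?_
  rw [sum_cons]
  refine sum_congr rfl fun x1 _ => ?_
  rw [sum_cons]
  refine sum_congr rfl fun x2 _ => ?_
  rw [sum_cons]
  refine sum_congr rfl fun x3 _ => ?_
  rw [sum_cons]
  refine sum_congr rfl fun x4 _ => ?_
  rw [sum_cons]
  refine sum_congr rfl fun x5 _ => ?_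
  rw [sum_zero]
  rfl

lemma tval_sum (w : Cls → ℝ) : tval graphG6 w =
    ∑ x0 : Cls, ∑ x3 : Cls, kk x0 x3 * w x0 * w x3 *
      (∑ x1 : Cls, ∑ x2 : Cls, kk x0 x1 * kk x1 x2 * kk x0 x2 * w x1 * w x2) *
      (∑ x4 : Cls, kk x3 x4 * w x4) * (∑ x5 : Cls, kk x3 x5 * w x5) := by
  unfold tval
  have h1 : ∀ (inst : Fintype (Fin 6 → Cls)) (F : (Fin 6 → Cls) → ℝ),
      @Finset.sum _ _ _ (@univ _ inst) F = @Finset.sum _ _ _ (@univ _ (@Pi.instFintype (Fin 6)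
        (fun _ => Cls) (instDecidableEqFin 6) (Fin.fintype 6) fun _ => instFintypeCls)) F := by
    intro inst F
    have h : inst = (@Pi.instFintype (Fin 6)
        (fun _ => Cls) (instDecidableEqFin 6) (Fin.fintype 6) fun _ => instFintypeCls) :=
      Subsingleton.elim _ _
    rw [h]
  refine Eq.trans (sum_congr rfl (fun c _ => ?_)) ((h1 _ _).trans ((six_sum
    (fun x0 x1 x2 x3 x4 x5 =>
    kk x0 x1 * kk x1 x2 * kk x0 x2 * kk x0 x3 * kk x3 x4 *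
        kk x3 x5 * (w x0 * w x1 * w x2 * w x3 * w x4 * w x5))).trans ?_))
  · rw [← summand w c]
    congr
  refine sum_congr rfl fun x0 _ => ?_
  have h2 : ∀ x1 : Cls, ∑ x2 : Cls, ∑ x3 : Cls, ∑ x4 : Cls, ∑ x5 : Cls,
      kk x0 x1 * kk x1 x2 * kk x0 x2 * kk x0 x3 * kk x3 x4 *
        kk x3 x5 * (w x0 * w x1 * w x2 * w x3 * w x4 * w x5) =
      ∑ x3 : Cls, ∑ x2 : Cls, (kk x0 x3 * w x0 * w x3 *
        (kk x0 x1 * kk x1 x2 * kk x0 x2 * w x1 * w x2)) *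
        (∑ x4 : Cls, kk x3 x4 * w x4) * (∑ x5 : Cls, kk x3 x5 * w x5) := by
    intro x1
    rw [sum_comm]
    refine sum_congr rfl fun x3 _ => sum_congr rfl fun x2 _ => ?_
    symm
    rw [mul_assoc, sum_mul_sum, mul_sum]
    refine sum_congr rfl fun x4 _ => ?_
    rw [mul_sum]
    refine sum_congr rfl fun x5 _ => ?_
    ring
  rw [sum_congr rfl fun x1 _ => h2 x1, sum_comm]
  refine sum_congr rfl fun x3 _ => ?_
  generalize (∑ x4, kk x3 x4 * w x4) = S4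
  simp only [mul_sum, sum_mul]

lemma kYY : kk .Y .Y = 1 := by simp [kk, Cls.ok]
lemma kYR : kk .Y .R = 1 := by simp [kk, Cls.ok]
lemma kYB : kk .Y .B = 0 := by simp [kk, Cls.ok]
lemma kRY : kk .R .Y = 1 := by simp [kk, Cls.ok]
lemma kRR : kk .R .R = 1 := by simp [kk, Cls.ok]
lemma kRB : kk .R .B = 1 := by simp [kk, Cls.ok]
lemma kBY : kk .B .Y = 0 := by simp [kk, Cls.ok]
lemma kBR : kk .B .R = 1 := by simp [kk, Cls.ok]
lemma kBB : kk .B .B = 0 := by simp [kk, Cls.ok]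

/-- the homomorphism polynomial of `G_6` -/
theorem tval_G6 (w : Cls → ℝ) : tval graphG6 w =
    w .Y ^ 2 * (w .Y + w .R) ^ 4
    + w .Y * w .R * (w .Y + w .R) ^ 2 * (w .Y + w .R + w .B) ^ 2
    + w .R * w .Y * ((w .Y + w .R) ^ 2 + 2 * w .R * w .B) * (w .Y + w .R) ^ 2
    + w .R ^ 2 * ((w .Y + w .R) ^ 2 + 2 * w .R * w .B) * (w .Y + w .R + w .B) ^ 2
    + w .R * w .B * ((w .Y + w .R) ^ 2 + 2 * w .R * w .B) * w .R ^ 2
    + w .B * w .R * w .R ^ 2 * (w .Y + w .R + w .B) ^ 2 := by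
  rw [tval_sum]
  simp only [sum_cls, kYY, kYR, kYB, kRY, kRR, kRB, kBY, kBR, kBB]
  ring

end Pool.Agent.X297.G6
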