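import Mathlib
import Pool.Agent.X297.G6.Poly
import Pool.Agent.Results.MP_35cd17_co.TGraphs

set_option autoImplicit false

namespace Pool.Agent.X297.G6

open Finset Filter Topology
open Pool.Agent.H488R3
open Pool.Agent.Results.MP_35cd17_co.TGraphs

/-- `P(x,r)` -/
def PP6 (x r : ℝ) : ℝ :=
  x ^ 3 * (5 * x - 1) + 2 * x ^ 2 * r * (6 - 7 * x) + r ^ 2 * (5 - 16 * x + 9 * x ^ 2)
    - 2 * r ^ 3 * (1 - x)

lemma diff_eq (w : Cls → ℝ) (hs : w .R + w .B + w .Y = 1) :
    (egy w) ^ 3 - tval graphG6 w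
      = w .R * w .B * PP6 (1 - w .B) (w .R) := by
  rw [tval_G6]
  have hy : w .Y = 1 - w .R - w .B := by linarith
  unfold egy PP6
  rw [hy]
  ring

lemma PP6_pos {y r b : ℝ} (hy : 0 ≤ y) (hr : 0 < r) (hb : 0 < b) (hs : y + r + b = 1)
    (hβ : 1 / 25 ≤ (y + r) ^ 2 + 2 * r * b) : 0 < PP6 (1 - b) r := by
  set x := y + r with hx
  have hxb : 1 - b = x := by linarith
  have hb' : b = 1 - x := by linarith
  have hx0 : 0 < x := by linarith
  have hx1 : x < 1 := by linarith
  rw [hxb]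
  have h1 : 0 ≤ 50 * r * (1 - x) - (1 - 5 * x) * (1 + 5 * x) := by
    rw [hb'] at hβ
    nlinarith
  have h2 : (1 + 5 * x) * (x * PP6 x r)
      = x * y ^ 3 * (50 * r * (1 - x) - (1 - 5 * x) * (1 + 5 * x))
        + x * y ^ 2 * r * ((1 + 5 * x) * (9 + x) - 50 * (1 - x) * y)
        + (1 + 5 * x) * ((5 + 5 * x - 4 * x ^ 2) * y * r ^ 2)
        + (1 + 5 * x) * ((1 - x) * (5 - 2 * x) * r ^ 3) := by
    have : r = x - y := by linarith
    rw [this]
    unfold PP6
    ring
  have h3 : 0 ≤ x * y ^ 3 * (50 * r * (1 - x) - (1 - 5 * x) * (1 + 5 * x))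
        + x * y ^ 2 * r * ((1 + 5 * x) * (9 + x) - 50 * (1 - x) * y) := by
    rcases le_total (1 / 5) x with h | h
    · have e : x * y ^ 3 * (50 * r * (1 - x) - (1 - 5 * x) * (1 + 5 * x))
          + x * y ^ 2 * r * ((1 + 5 * x) * (9 + x) - 50 * (1 - x) * y)
          = x * y ^ 3 * ((5 * x - 1) * (1 + 5 * x)) + x * y ^ 2 * r * ((1 + 5 * x) * (9 + x)) := by
        ring
      rw [e]
      have h5 : 0 ≤ 5 * x - 1 := by linarith
      positivity
    · have h6 : 50 * (1 - x) * y ≤ 9 := by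
        have : y ≤ x := by linarith
        nlinarith [mul_nonneg (show (0:ℝ) ≤ 1 - x by linarith) (show 0 ≤ x - y by linarith)]
      have h7 : 0 ≤ (1 + 5 * x) * (9 + x) - 50 * (1 - x) * y := by nlinarith
      have h8 : 0 ≤ x * y ^ 3 := by positivity
      have h9 : 0 ≤ x * y ^ 2 * r := by positivity
      exact add_nonneg (mul_nonneg h8 h1) (mul_nonneg h9 h7)
  have h4 : 0 ≤ (1 + 5 * x) * ((5 + 5 * x - 4 * x ^ 2) * y * r ^ 2) := by
    have : 0 ≤ 5 + 5 * x - 4 * x ^ 2 := by nlinarith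
    positivity
  have h5 : 0 < (1 + 5 * x) * ((1 - x) * (5 - 2 * x) * r ^ 3) := by
    have g1 : 0 < 1 - x := by linarith
    have g2 : 0 < 5 - 2 * x := by linarith
    positivity
  have h6 : 0 < (1 + 5 * x) * (x * PP6 x r) := by rw [h2]; linarith
  have h7 : 0 < (1 + 5 * x) * x := by positivity
  rw [← mul_assoc] at h6
  exact (mul_pos_iff_of_pos_left h7).1 h6

/-- strict inequality for weights which are not a quasi-clique -/
theorem tval_lt {w : Cls → ℝ} (hw : w ∈ KK) (hR : 0 < w .R) (hB : 0 < w .B)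
    (hβ : 1 / 25 ≤ egy w) : tval graphG6 w < (egy w) ^ 3 := by
  have h := diff_eq w hw.2
  have hP := PP6_pos (y := w .Y) (r := w .R) (b := w .B) (hw.1 .Y) hR hB
    (by linarith [hw.2]) (by
      have : (w .Y + w .R) ^ 2 + 2 * w .R * w .B = egy w := by unfold egy; ring
      rw [this]; exact hβ)
  have : 0 < w .R * w .B * PP6 (1 - w .B) (w .R) := by positivity
  linarith

theorem tval_le {w : Cls → ℝ} (hw : w ∈ KK)
    (hβ : 1 / 25 ≤ egy w) : tval graphG6 w ≤ (egy w) ^ 3 := by
  rcases eq_or_lt_of_le (hw.1 .R) with hR | hR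
  · have h := diff_eq w hw.2
    rw [← hR] at h
    linarith
  · rcases eq_or_lt_of_le (hw.1 .B) with hB | hB
    · have h := diff_eq w hw.2
      rw [← hB] at h
      linarith
    · exact (tval_lt hw hR hB hβ).le

/-- the star weight is not optimal -/
theorem tval_star_lt {w : Cls → ℝ} (hw : w ∈ KK) (hY : w .Y = 0) (hR : 0 < w .R)
    (hB : 0 < w .B) : tval graphG6 w < (egy w) ^ 3 := by
  have h := diff_eq w hw.2
  have h2 := hw.2
  rw [hY] at h2
  have hb : w .B = 1 - w .R := by linarith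
  have hP : 0 < PP6 (1 - w .B) (w .R) := by
    have e : PP6 (1 - w .B) (w .R) = w .R ^ 2 * w .B * (5 - 2 * w .R) := by
      unfold PP6
      rw [hb]
      ring
    rw [e]
    have : 0 < 5 - 2 * w .R := by linarith
    positivity
  have : 0 < w .R * w .B * PP6 (1 - w .B) (w .R) := by positivity
  linarith

/-- for small densities some weight beats the quasi-clique -/
theorem exists_better {β : ℝ} (h0 : 0 < β) (h1 : β < 1 / 25) :
    ∃ q ∈ Set.Ioo (0:ℝ) 1, β ^ 3 < tval graphG6 (csize β q) := by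
  have hs0 : 0 < Real.sqrt β := Real.sqrt_pos.2 h0
  have hs1 : Real.sqrt β < 1 / 5 := by
    rw [Real.sqrt_lt' (by norm_num)]
    norm_num
    linarith
  have hc : Continuous (fun q => PP6 (1 - csize β q .B) (csize β q .R)) := by
    have := csize_continuous β
    have hB : Continuous (fun q => csize β q .B) := (continuous_apply Cls.B).comp this
    have hR : Continuous (fun q => csize β q .R) := (continuous_apply Cls.R).comp this
    unfold PP6
    fun_prop
  have hv : PP6 (1 - csize β 1 .B) (csize β 1 .R) < 0 := by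
    have e1 : csize β 1 .B = 1 - Real.sqrt β := by rw [csize_B]; simp
    have e2 : csize β 1 .R = 0 := by rw [csize_R]; simp
    rw [e1, e2]
    unfold PP6
    have : 0 < Real.sqrt β ^ 3 := by positivity
    nlinarith
  have hev : ∀ᶠ q in 𝓝 (1:ℝ), PP6 (1 - csize β q .B) (csize β q .R) < 0 :=
    hc.continuousAt.eventually_lt continuousAt_const hv
  have hev2 : ∀ᶠ q in 𝓝[<] (1:ℝ), PP6 (1 - csize β q .B) (csize β q .R) < 0 ∧
      q ∈ Set.Ioo (0:ℝ) 1 :=
    (hev.filter_mono nhdsWithin_le_nhds).and (Ioo_mem_nhdsLT (by norm_num))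
  obtain ⟨q, hq1, hq⟩ := hev2.exists
  refine ⟨q, hq, ?_⟩
  obtain ⟨hw, he⟩ := size_mem h0.le (by linarith : β ≤ 1) hq.1.le hq.2.le
  have h := diff_eq _ hw.2
  rw [he] at h
  have hR : 0 < csize β q .R := by
    rw [csize_R]
    have h2 : Real.sqrt (1 - β * (1 - q ^ 2)) < 1 := by
      rw [Real.sqrt_lt' (by norm_num)]
      have : 0 < β * (1 - q ^ 2) := by
        apply mul_pos h0
        nlinarith [hq.1, hq.2]
      linarith
    linarith
  have hB : 0 < csize β q .B := by
    rw [csize_B]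
    have h2 : Real.sqrt β * q < Real.sqrt (1 - β * (1 - q ^ 2)) := by
      apply Real.lt_sqrt_of_sq_lt
      rw [mul_pow, Real.sq_sqrt h0.le]
      nlinarith
    linarith
  have : 0 < - (csize β q .R * csize β q .B * PP6 (1 - csize β q .B) (csize β q .R)) := by
    rw [← mul_neg]
    have : 0 < - PP6 (1 - csize β q .B) (csize β q .R) := by linarith
    positivity
  linarith

end Pool.Agent.X297.G6
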