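import Mathlib
import Pool.Agent.X297.G6.Ex
import Pool.Agent.X297.G6.Ineq

set_option autoImplicit false

namespace Pool.Agent.X297.G6

open Finset Filter Topology
open Pool.Agent.H488R3
open Pool.Agent.Results.MP_35cd17_co.TGraphs
open scoped Classical

variable {V : Type} [Fintype V]

/-- hom densities of class graphs -/
theorem class_tendsto (G : SimpleGraph V) (cl : ∀ n : ℕ, Fin n → Cls) {w : Cls → ℝ}
    (hw : ∀ c, Tendsto (fun n : ℕ => cnt (cl n) c / (n : ℝ)) atTop (𝓝 (w c))) :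
    Tendsto (fun N : ℕ => ((HM G (HG (cl N))).card : ℝ) / (N : ℝ) ^ Fintype.card V) atTop
      (𝓝 (tval G w)) := by
  have hw' : Tendsto (fun N : ℕ => (fun c => cnt (cl N) c / (N : ℝ))) atTop (𝓝 w) := by
    rw [tendsto_pi_nhds]; exact hw
  have h1 : Tendsto (fun N : ℕ => ((LH G (cl N)).card : ℝ) / (N : ℝ) ^ Fintype.card V) atTop
      (𝓝 (tval G w)) := by
    have h2 := ((tval_continuous G).tendsto w).comp hw'
    refine h2.congr' ?_
    filter_upwards [eventually_gt_atTop 0] with N hN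
    have hN' : (N:ℝ) ≠ 0 := by positivity
    rw [LH_card]
    have : cnt (cl N) = fun c => (N:ℝ) * (cnt (cl N) c / N) := by
      funext c; field_simp
    rw [Function.comp_apply]
    conv_rhs => rw [this]
    rw [tval_smul]
    field_simp
  have h3 : Tendsto (fun N : ℕ => ((LH G (cl N)).card : ℝ) / (N : ℝ) ^ Fintype.card V -
      (Fintype.card V : ℝ) ^ 2 / N) atTop (𝓝 (tval G w)) := by
    have : Tendsto (fun N : ℕ => (Fintype.card V : ℝ) ^ 2 / N) atTop (𝓝 0) :=
      tendsto_natCast_atTop_atTop.const_div_atTop _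
    simpa using h1.sub this
  refine tendsto_of_tendsto_of_tendsto_of_le_of_le' h3 h1 ?_ ?_
  · filter_upwards [eventually_gt_atTop 0] with N hN
    have hN' : (0:ℝ) < N := by exact_mod_cast hN
    have h4 := LH_bound G (cl N)
    rw [Fintype.card_fin] at h4
    have h5 : (N:ℝ) * (LH G (cl N)).card ≤ N * (HM G (HG (cl N))).card
        + (Fintype.card V : ℝ) ^ 2 * (N:ℝ) ^ Fintype.card V := by
      exact_mod_cast h4
    rw [sub_le_iff_le_add, div_le_iff₀ (by positivity)]
    have h6 : (N:ℝ) * ((((HM G (HG (cl N))).card : ℝ) / (N:ℝ) ^ Fintype.card V +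
          (Fintype.card V : ℝ) ^ 2 / N) * (N:ℝ) ^ Fintype.card V)
        = N * (HM G (HG (cl N))).card + (Fintype.card V : ℝ) ^ 2 * (N:ℝ) ^ Fintype.card V := by
      field_simp
    rw [← h6] at h5
    exact le_of_mul_le_mul_left h5 hN'
  · filter_upwards [eventually_gt_atTop 0] with N hN
    apply div_le_div_of_nonneg_right _ (by positivity)
    exact_mod_cast card_le_card (HM_sub_LH G (cl N))

lemma EE_upper {n : ℕ} (cl : Fin n → Cls) : (EE (HG cl) : ℝ) ≤ egy (cnt cl) := by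
  rw [EE_eq, ← tval_K2, ← LH_card]
  have := card_le_card (HM_sub_LH (⊤ : SimpleGraph (Fin 2)) cl)
  exact_mod_cast this

lemma EE_lower {n : ℕ} (hn : 0 < n) (cl : Fin n → Cls) :
    egy (cnt cl) - 4 * n ≤ (EE (HG cl) : ℝ) := by
  rw [EE_eq, ← tval_K2, ← LH_card]
  have h := LH_bound (⊤ : SimpleGraph (Fin 2)) cl
  rw [Fintype.card_fin, Fintype.card_fin] at h
  have hn' : (0:ℝ) < n := by exact_mod_cast hn
  have h5 : (n:ℝ) * (LH (⊤ : SimpleGraph (Fin 2)) cl).card ≤
      n * (HM (⊤ : SimpleGraph (Fin 2)) (HG cl)).card + (2:ℝ) ^ 2 * (n:ℝ) ^ 2 := by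
    exact_mod_cast h
  have h6 : (n:ℝ) * ((LH (⊤ : SimpleGraph (Fin 2)) cl).card - 4 * n) ≤
      n * ((HM (⊤ : SimpleGraph (Fin 2)) (HG cl)).card) := by nlinarith
  have h7 := le_of_mul_le_mul_left h6 hn'
  push_cast
  exact h7

lemma EE_mono {n : ℕ} {H H' : SimpleGraph (Fin n)} (h : H ≤ H') : (EE H : ℝ) ≤ EE H' := by
  rw [EE_eq, EE_eq]
  have := card_le_card (HM_mono (G := (⊤ : SimpleGraph (Fin 2))) h)
  exact_mod_cast this

lemma cnt_sum {n : ℕ} (cl : Fin n → Cls) : cnt cl .Y + cnt cl .R + cnt cl .B = n := by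
  rw [← sum_cls (cnt cl)]
  unfold cnt
  have := card_eq_sum_card_fiberwise (f := cl) (s := univ) (t := univ) (fun _ _ => by simp)
  rw [card_univ, Fintype.card_fin] at this
  exact_mod_cast this.symm

lemma cnt_nonneg {n : ℕ} (cl : Fin n → Cls) (c : Cls) : 0 ≤ cnt cl c := by
  unfold cnt; positivity

/-- edge density of class graphs with rounded sizes -/
lemma dens_class {n : ℕ} (hn : 0 < n) (cl : Fin n → Cls) {w : Cls → ℝ} (hw : w ∈ KK)
    (h : ∀ c, |cnt cl c - w c * n| ≤ 1) :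
    |2 * ((HG cl).edgeSet.ncard : ℝ) / (n : ℝ) ^ 2 - egy w| ≤ 10 / (n : ℝ) := by
  have hn' : (1:ℝ) ≤ n := by exact_mod_cast hn
  have hn0 : (0:ℝ) < n := by linarith
  rw [two_mul_edges]
  have h1 := EE_upper cl
  have h2 := EE_lower hn cl
  have hs := cnt_sum cl
  have hY := abs_le.1 (h .Y)
  have hR := abs_le.1 (h .R)
  have hY0 := cnt_nonneg cl .Y
  have hR0 := cnt_nonneg cl .R
  have hB0 := cnt_nonneg cl .B
  have hp := hw.1
  have hsum := hw.2
  have wY := hp .Y
  have wR := hp .R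
  have wB := hp .B
  have e1 : egy (cnt cl) = 2 * cnt cl .R * n - cnt cl .R ^ 2 + cnt cl .Y ^ 2 := by
    unfold egy
    have : cnt cl .B + cnt cl .Y = n - cnt cl .R := by linarith
    rw [this]; ring
  have e2 : egy w * n ^ 2 = 2 * (w .R * n) * n - (w .R * n) ^ 2 + (w .Y * n) ^ 2 := by
    unfold egy
    have : w .B + w .Y = 1 - w .R := by linarith
    rw [this]; ring
  set R := cnt cl .R
  set Y := cnt cl .Y
  set R' := w .R * n with hR'
  set Y' := w .Y * n with hY'
  have b1 : R ≤ n := by linarith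
  have b2 : Y ≤ n := by linarith
  have b3 : R' ≤ n := by
    rw [hR']; nlinarith
  have b4 : Y' ≤ n := by
    rw [hY']; nlinarith
  have b5 : 0 ≤ R' := by positivity
  have b6 : 0 ≤ Y' := by positivity
  have k1 : |(R - R') * (2 * n - R - R')| ≤ 2 * n := by
    rw [abs_mul]
    have g1 : |R - R'| ≤ 1 := h .R
    have g2 : |2 * n - R - R'| ≤ 2 * n := by
      rw [abs_le]; constructor <;> linarith
    nlinarith [abs_nonneg (R - R'), abs_nonneg (2 * n - R - R')]
  have k2 : |(Y - Y') * (Y + Y')| ≤ 2 * n := by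
    rw [abs_mul]
    have g1 : |Y - Y'| ≤ 1 := h .Y
    have g2 : |Y + Y'| ≤ 2 * n := by
      rw [abs_le]; constructor <;> linarith
    nlinarith [abs_nonneg (Y - Y'), abs_nonneg (Y + Y')]
  have e3 : egy (cnt cl) - egy w * n ^ 2 = (R - R') * (2 * n - R - R') + (Y - Y') * (Y + Y') := by
    rw [e1, e2]; ring
  have k1' := abs_le.1 k1
  have k2' := abs_le.1 k2
  have e4 : (EE (HG cl) : ℝ) / (n : ℝ) ^ 2 - egy w
      = ((EE (HG cl) : ℝ) - n ^ 2 * egy w) / (n : ℝ) ^ 2 := by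
    field_simp
  rw [e4, abs_div, abs_of_pos (by positivity : (0:ℝ) < (n:ℝ) ^ 2),
    div_le_div_iff₀ (by positivity) hn0]
  have k3 : |(EE (HG cl) : ℝ) - n ^ 2 * egy w| ≤ 10 * n := by
    rw [mul_comm, abs_le]
    constructor
    · linarith
    · linarith
  calc _ ≤ 10 * (n:ℝ) * n := mul_le_mul_of_nonneg_right k3 hn0.le
    _ = _ := by ring

/-- class sequences with rounded sizes -/
theorem tendsto_of_round (G : SimpleGraph V) (cl : ∀ n : ℕ, Fin n → Cls) {w : Cls → ℝ}
    (h : ∀ n : ℕ, 0 < n → ∀ c, |cnt (cl n) c - w c * n| ≤ 1) :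
    Tendsto (fun N : ℕ => ((HM G (HG (cl N))).card : ℝ) / (N : ℝ) ^ Fintype.card V) atTop
      (𝓝 (tval G w)) := by
  apply class_tendsto
  intro c
  have h1 : Tendsto (fun n : ℕ => w c - 1 / (n : ℝ)) atTop (𝓝 (w c)) := by
    have : Tendsto (fun n : ℕ => (1:ℝ) / (n : ℝ)) atTop (𝓝 0) :=
      tendsto_natCast_atTop_atTop.const_div_atTop _
    simpa using this.const_sub (w c)
  have h2 : Tendsto (fun n : ℕ => w c + 1 / (n : ℝ)) atTop (𝓝 (w c)) := by
    have : Tendsto (fun n : ℕ => (1:ℝ) / (n : ℝ)) atTop (𝓝 0) :=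
      tendsto_natCast_atTop_atTop.const_div_atTop _
    simpa using this.const_add (w c)
  refine tendsto_of_tendsto_of_tendsto_of_le_of_le' h1 h2 ?_ ?_
  · filter_upwards [eventually_gt_atTop 0] with n hn
    have hn' : (0:ℝ) < n := by exact_mod_cast hn
    have := (abs_le.1 (h n hn c)).1
    rw [le_div_iff₀ hn', sub_mul, div_mul_cancel₀ _ hn'.ne']
    linarith
  · filter_upwards [eventually_gt_atTop 0] with n hn
    have hn' : (0:ℝ) < n := by exact_mod_cast hn
    have := (abs_le.1 (h n hn c)).2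
    rw [div_le_iff₀ hn', add_mul, div_mul_cancel₀ _ hn'.ne']
    linarith

end Pool.Agent.X297.G6
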