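import Mathlib
import Pool.Agent.X297.G6.Seq

set_option autoImplicit false

namespace Pool.Agent.X297.G6

open Finset Filter Topology
open Pool.Agent.H488R3
open Pool.Agent.Results.MP_35cd17_co.TGraphs
open scoped Classical

variable {V : Type} [Fintype V]

lemma classGraph_eq {n : ℕ} (c : Fin n → Fin 3) : classGraph c = HG (fun i => ofFin (c i)) := by
  ext i j
  have h : ∀ k : Fin 3, k = 0 ∨ k = 1 ∨ k = 2 := by intro k; omega
  simp only [classGraph, HG]
  rcases h (c i) with h1 | h1 | h1 <;> rcases h (c j) with h2 | h2 | h2 <;>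
    simp [h1, h2, ofFin, Cls.ok]

lemma cnt_ofFin {n : ℕ} (c : Fin n → Fin 3) (k : Cls) :
    cnt (fun i => ofFin (c i)) k = ((univ.filter (fun i => c i = toFin k)).card : ℝ) := by
  unfold cnt
  congr 2
  apply filter_congr
  intro i _
  constructor
  · intro h
    rw [← h]
    exact (clsEquiv.right_inv (c i)).symm
  · intro h
    show ofFin (c i) = k
    rw [h]
    exact clsEquiv.left_inv k

lemma prop_eq (β q : ℝ) (k : Cls) : prop β q (toFin k) = csize β q k := rfl

/-- a `T`-sequence is a class sequence -/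
lemma tseq_cl {β q : ℝ} {H : ∀ n : ℕ, SimpleGraph (Fin n)} (h : IsTSeq β q H) :
    ∃ cl : ∀ n : ℕ, Fin n → Cls, (∀ n, 0 < n → H n = HG (cl n)) ∧
      ∀ n, 0 < n → ∀ c, |cnt (cl n) c - csize β q c * n| ≤ 1 := by
  have : ∀ n : ℕ, ∃ cl : Fin n → Cls, 0 < n → (H n = HG cl ∧
      ∀ c, |cnt cl c - csize β q c * n| ≤ 1) := by
    intro n
    by_cases hn : 0 < n
    · obtain ⟨c, h1, h2⟩ := h n hn
      refine ⟨fun i => ofFin (c i), fun _ => ⟨?_, ?_⟩⟩
      · rw [h1, classGraph_eq]
      · intro k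
        rw [cnt_ofFin, ← prop_eq]
        exact (h2 (toFin k)).le
    · exact ⟨fun _ => Cls.Y, fun h' => absurd h' hn⟩
  choose cl hcl using this
  exact ⟨cl, fun n hn => (hcl n hn).1, fun n hn => (hcl n hn).2⟩

theorem tseq_hom (G : SimpleGraph V) {β q : ℝ} {H : ∀ n : ℕ, SimpleGraph (Fin n)}
    (h : IsTSeq β q H) :
    Tendsto (fun N : ℕ => ((HM G (H N)).card : ℝ) / (N : ℝ) ^ Fintype.card V) atTop
      (𝓝 (tval G (csize β q))) := by
  obtain ⟨cl, h1, h2⟩ := tseq_cl h
  refine (tendsto_of_round G cl h2).congr' ?_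
  filter_upwards [eventually_gt_atTop 0] with n hn
  rw [h1 n hn]

theorem tseq_dens {β q : ℝ} (h0 : 0 ≤ β) (h1 : β ≤ 1) (hq0 : 0 ≤ q) (hq1 : q ≤ 1)
    {H : ∀ n : ℕ, SimpleGraph (Fin n)} (h : IsTSeq β q H) :
    ∃ C : ℝ, ∀ n : ℕ, 0 < n → |2 * ((H n).edgeSet.ncard : ℝ) / (n : ℝ) ^ 2 - β| ≤ C / n := by
  obtain ⟨cl, h2, h3⟩ := tseq_cl h
  obtain ⟨hw, he⟩ := size_mem h0 h1 hq0 hq1
  refine ⟨10, fun n hn => ?_⟩
  have := dens_class hn (cl n) hw (h3 n hn)
  rw [he] at this
  rw [h2 n hn]
  exact this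

/-- `T`-sequences exist -/
theorem exists_tseq {β q : ℝ} (h0 : 0 ≤ β) (h1 : β ≤ 1) (hq0 : 0 ≤ q) (hq1 : q ≤ 1) :
    ∃ H : ∀ n : ℕ, SimpleGraph (Fin n), IsTSeq β q H := by
  obtain ⟨hw, he⟩ := size_mem h0 h1 hq0 hq1
  have p0 : prop β q 0 = csize β q .Y := rfl
  have p1 : prop β q 1 = csize β q .R := rfl
  have p2 : prop β q 2 = csize β q .B := rfl
  have hY := hw.1 .Y
  have hR := hw.1 .R
  have hB := hw.1 .B
  have hs := hw.2
  set y := csize β q .Y with hy
  set r := csize β q .R with hr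
  set b := csize β q .B with hb
  set c : ∀ n : ℕ, Fin n → Fin 3 := fun n i => if (i : ℕ) < ⌊y * n⌋₊ then 0 else
    if (i : ℕ) < ⌊(y + r) * n⌋₊ then 1 else 2 with hc
  refine ⟨fun n => classGraph (c n), ?_⟩
  intro n hn
  refine ⟨c n, rfl, ?_⟩
  have hn' : (0:ℝ) < n := by exact_mod_cast hn
  have a1 : (⌊y * n⌋₊ : ℝ) ≤ y * n := Nat.floor_le (by positivity)
  have a2 : y * n < (⌊y * n⌋₊ : ℝ) + 1 := Nat.lt_floor_add_one _
  have a3 : (⌊(y + r) * n⌋₊ : ℝ) ≤ (y + r) * n := Nat.floor_le (by positivity)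
  have a4 : (y + r) * n < (⌊(y + r) * n⌋₊ : ℝ) + 1 := Nat.lt_floor_add_one _
  have a5 : ⌊y * n⌋₊ ≤ ⌊(y + r) * n⌋₊ := Nat.floor_le_floor (by nlinarith)
  have a6 : ⌊(y + r) * n⌋₊ ≤ n := by
    have : ((⌊(y + r) * n⌋₊ : ℕ) : ℝ) ≤ n := by nlinarith
    exact_mod_cast this
  set A := ⌊y * n⌋₊ with hA
  set D := ⌊(y + r) * n⌋₊ with hD
  have c0 : (univ.filter (fun i : Fin n => c n i = 0)).card = A := by
    have h1 : (univ : Finset (Fin n)).filter (fun i => c n i = 0)
        = (univ : Finset (Fin n)).filter (fun i : Fin n => (i : ℕ) < A) := by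
      apply filter_congr
      intro i _
      simp only [hc, ← hA, ← hD]
      split_ifs with g1 g2 <;> simp [g1]
    rw [h1, card_filter_fin n (fun k => k < A)]
    have : (range n).filter (fun k : ℕ => k < A) = range A := by
      ext k; simp only [mem_filter, mem_range]; omega
    rw [this, card_range]
  have c1 : (univ.filter (fun i : Fin n => c n i = 1)).card = D - A := by
    have h1 : (univ : Finset (Fin n)).filter (fun i => c n i = 1)
        = (univ : Finset (Fin n)).filter (fun i : Fin n => ¬ (i : ℕ) < A ∧ (i : ℕ) < D) := by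
      apply filter_congr
      intro i _
      simp only [hc, ← hA, ← hD]
      split_ifs with g1 g2
      · simp [g1]
      · simp [g1, g2]
      · simp [g2]
    rw [h1, card_filter_fin n (fun k => ¬ k < A ∧ k < D)]
    have : (range n).filter (fun k : ℕ => ¬ k < A ∧ k < D) = Ico A D := by
      ext k; simp only [mem_filter, mem_range, mem_Ico]; omega
    rw [this, Nat.card_Ico]
  have c2 : (univ.filter (fun i : Fin n => c n i = 2)).card = n - D := by
    have h1 : (univ : Finset (Fin n)).filter (fun i => c n i = 2)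
        = (univ : Finset (Fin n)).filter (fun i : Fin n => ¬ (i : ℕ) < D) := by
      apply filter_congr
      intro i _
      simp only [hc, ← hA, ← hD]
      split_ifs with g1 g2
      · simp; omega
      · simp [g2]
      · simp [g2]
    rw [h1, card_filter_fin n (fun k => ¬ k < D)]
    have : (range n).filter (fun k : ℕ => ¬ k < D) = Ico D n := by
      ext k; simp only [mem_filter, mem_range, mem_Ico]; omega
    rw [this, Nat.card_Ico]
  intro k
  have hk : k = 0 ∨ k = 1 ∨ k = 2 := by omega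
  rcases hk with rfl | rfl | rfl
  · rw [c0, p0, abs_lt]
    constructor <;> linarith
  · rw [c1, p1, abs_lt, Nat.cast_sub a5]
    constructor <;> nlinarith
  · rw [c2, p2, abs_lt, Nat.cast_sub a6]
    have hb' : b = 1 - (y + r) := by linarith
    rw [hb']
    constructor <;> nlinarith

/-- at density `0` a `T`-sequence has no edges -/
lemma tseq_zero {q : ℝ} {H : ∀ n : ℕ, SimpleGraph (Fin n)} (h : IsTSeq 0 q H) {n : ℕ}
    (hn : 0 < n) : H n = ⊥ := by
  obtain ⟨c, h1, h2⟩ := h n hn
  have e0 : prop 0 q 0 = 0 := by simp [prop]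
  have e1 : prop 0 q 1 = 0 := by simp [prop]
  have k0 : ∀ i, c i ≠ 0 := by
    have := h2 0
    rw [e0, zero_mul, sub_zero, abs_lt] at this
    have h3 : (univ.filter (fun i => c i = 0)).card < 1 := by exact_mod_cast this.2
    have h4 : univ.filter (fun i => c i = 0) = ∅ := by
      rw [← card_eq_zero]; omega
    intro i hi
    have : i ∈ univ.filter (fun i => c i = 0) := by simp [hi]
    rw [h4] at this
    simp at this
  have k1 : ∀ i, c i ≠ 1 := by
    have := h2 1
    rw [e1, zero_mul, sub_zero, abs_lt] at this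
    have h3 : (univ.filter (fun i => c i = 1)).card < 1 := by exact_mod_cast this.2
    have h4 : univ.filter (fun i => c i = 1) = ∅ := by
      rw [← card_eq_zero]; omega
    intro i hi
    have : i ∈ univ.filter (fun i => c i = 1) := by simp [hi]
    rw [h4] at this
    simp at this
  rw [h1]
  ext i j
  simp [classGraph, k0, k1]

end Pool.Agent.X297.G6
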