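import Mathlib
import Pool.Agent.X297.G6.TQ

set_option autoImplicit false

namespace Pool.Agent.X297.G6

open Finset Filter Topology
open Pool.Agent.H488R3
open Pool.Agent.Results.MP_35cd17_co.TGraphs
open scoped Classical

variable {V : Type} [Fintype V]

/-- first `a` vertices in `Y`, the others in `B` -/
noncomputable def clQ (n a : ℕ) (i : Fin n) : Cls := if (i : ℕ) < a then .Y else .B

lemma clQ_Y (n a : ℕ) : cnt (clQ n a) .Y = ((min a n : ℕ) : ℝ) := by
  unfold cnt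
  have h1 : (univ : Finset (Fin n)).filter (fun i => clQ n a i = .Y)
      = (univ : Finset (Fin n)).filter (fun i : Fin n => (i : ℕ) < a) := by
    apply filter_congr
    intro i _
    unfold clQ
    split_ifs with g1 <;> simp [g1]
  rw [h1, card_filter_fin n (fun k => k < a)]
  have : (range n).filter (fun k : ℕ => k < a) = range (min a n) := by
    ext k; simp only [mem_filter, mem_range]; omega
  rw [this, card_range]

lemma clQ_R (n a : ℕ) : cnt (clQ n a) .R = 0 := by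
  unfold cnt
  have h1 : (univ : Finset (Fin n)).filter (fun i => clQ n a i = .R) = ∅ := by
    ext i
    simp only [mem_filter, mem_univ, true_and, notMem_empty, iff_false]
    unfold clQ
    split_ifs <;> simp
  rw [h1]; simp

lemma clQ_B (n a : ℕ) : cnt (clQ n a) .B = (n : ℝ) - ((min a n : ℕ) : ℝ) := by
  have := cnt_sum (clQ n a)
  rw [clQ_Y, clQ_R] at this
  linarith

lemma egy_clQ (n a : ℕ) : egy (cnt (clQ n a)) = (((min a n : ℕ) : ℝ)) ^ 2 := by
  unfold egy
  rw [clQ_Y, clQ_R]; ring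

lemma qc_lower (n a b : ℕ) : HG (clQ n a) ≤ quasiClique n a b := by
  intro i j h
  refine ⟨h.1, Or.inl ?_⟩
  have h2 := h.2
  unfold clQ at h2
  split_ifs at h2 with g1 g2
  · exact ⟨g1, g2⟩
  · exact absurd h2 (by simp [Cls.ok])
  · exact absurd h2 (by simp [Cls.ok])
  · exact absurd h2 (by simp [Cls.ok])

lemma qc_upper (n a b : ℕ) (hb : b < a) : quasiClique n a b ≤ HG (clQ n (a + 1)) := by
  intro i j h
  refine ⟨h.1, ?_⟩
  have h1 : (i : ℕ) < a + 1 ∧ (j : ℕ) < a + 1 := by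
    rcases h.2 with h | h | h <;> omega
  unfold clQ
  rw [if_pos h1.1, if_pos h1.2]
  simp [Cls.ok]

lemma qc_a_le {n a b : ℕ} (hn : 0 < n) (h : a.choose 2 + b ≤ n.choose 2) : a ≤ n := by
  by_contra hc
  have h1 : n + 1 ≤ a := by omega
  have h2 : (n + 1).choose 2 ≤ a.choose 2 := Nat.choose_le_choose 2 h1
  have h3 : (n + 1).choose 2 = n.choose 1 + n.choose 2 := Nat.choose_succ_succ n 1
  rw [Nat.choose_one_right] at h3
  omega

/-- number of edges of the quasi-clique, up to a linear error -/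
lemma qc_edges {n a b : ℕ} (hn : 0 < n) (hb : b < a) (h : a.choose 2 + b ≤ n.choose 2) :
    |2 * ((quasiClique n a b).edgeSet.ncard : ℝ) - 2 * ((a.choose 2 + b : ℕ) : ℝ)| ≤ 5 * n := by
  have ha := qc_a_le hn h
  rw [two_mul_edges]
  have h1 := EE_lower hn (clQ n a)
  have h2 := EE_mono (qc_lower n a b)
  have h3 := EE_mono (qc_upper n a b hb)
  have h4 := EE_upper (clQ n (a + 1))
  rw [egy_clQ] at h1 h4
  rw [min_eq_left ha] at h1
  have h5 : ((min (a + 1) n : ℕ) : ℝ) ≤ (a : ℝ) + 1 := by exact_mod_cast min_le_left _ _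
  have h6 : (0:ℝ) ≤ ((min (a + 1) n : ℕ) : ℝ) := by positivity
  have h7 : ((min (a + 1) n : ℕ) : ℝ) ^ 2 ≤ ((a : ℝ) + 1) ^ 2 := by gcongr
  push_cast
  rw [Nat.cast_choose_two ℝ a]
  have a1 : (1:ℝ) ≤ a := by exact_mod_cast (by omega : 1 ≤ a)
  have a2 : (a:ℝ) ≤ n := by exact_mod_cast ha
  have a3 : (b:ℝ) + 1 ≤ a := by exact_mod_cast hb
  have a4 : (0:ℝ) ≤ b := by positivity
  rw [abs_le]
  constructor <;> nlinarith

lemma dens_iff {β : ℝ} {a b : ℕ → ℕ} (h : IsQCSeq a b) :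
    (∃ C : ℝ, ∀ n : ℕ, 0 < n →
        |2 * ((quasiClique n (a n) (b n)).edgeSet.ncard : ℝ) / (n : ℝ) ^ 2 - β| ≤ C / n) ↔
    (∃ C : ℝ, ∀ n : ℕ, 0 < n →
        |2 * (((a n).choose 2 + b n : ℕ) : ℝ) / (n : ℝ) ^ 2 - β| ≤ C / n) := by
  have key : ∀ n : ℕ, 0 < n → |2 * ((quasiClique n (a n) (b n)).edgeSet.ncard : ℝ) / (n : ℝ) ^ 2
      - 2 * (((a n).choose 2 + b n : ℕ) : ℝ) / (n : ℝ) ^ 2| ≤ 5 / (n : ℝ) := by
    intro n hn
    have hn' : (0:ℝ) < n := by exact_mod_cast hn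
    rw [← sub_div, abs_div, abs_of_pos (by positivity : (0:ℝ) < (n:ℝ) ^ 2),
      div_le_div_iff₀ (by positivity) hn']
    calc _ ≤ 5 * (n:ℝ) * n := mul_le_mul_of_nonneg_right (qc_edges hn (h n hn).1 (h n hn).2) hn'.le
      _ = _ := by ring
  constructor
  · rintro ⟨C, hC⟩
    refine ⟨C + 5, fun n hn => ?_⟩
    have h1 := hC n hn
    have h2 := key n hn
    rw [abs_le] at h1 h2 ⊢
    rw [add_div]
    constructor <;> linarith [h1.1, h1.2, h2.1, h2.2]
  · rintro ⟨C, hC⟩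
    refine ⟨C + 5, fun n hn => ?_⟩
    have h1 := hC n hn
    have h2 := key n hn
    rw [abs_le] at h1 h2 ⊢
    rw [add_div]
    constructor <;> linarith [h1.1, h1.2, h2.1, h2.2]

lemma tendsto_of_bound {f : ℕ → ℝ} {β : ℝ} (h : ∃ C : ℝ, ∀ n : ℕ, 0 < n → |f n - β| ≤ C / n) :
    Tendsto f atTop (𝓝 β) := by
  obtain ⟨C, hC⟩ := h
  have h1 : Tendsto (fun n : ℕ => C / (n : ℝ)) atTop (𝓝 0) :=
    tendsto_natCast_atTop_atTop.const_div_atTop _
  rw [tendsto_iff_dist_tendsto_zero]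
  refine squeeze_zero' (Eventually.of_forall fun n => dist_nonneg) ?_ h1
  filter_upwards [eventually_gt_atTop 0] with n hn
  rw [Real.dist_eq]
  exact hC n hn

lemma qc_a_tendsto {β : ℝ} {a b : ℕ → ℕ} (h : IsQCSeq a b)
    (hd : ∃ C : ℝ, ∀ n : ℕ, 0 < n →
        |2 * (((a n).choose 2 + b n : ℕ) : ℝ) / (n : ℝ) ^ 2 - β| ≤ C / n) :
    Tendsto (fun n : ℕ => ((a n : ℕ) : ℝ) / n) atTop (𝓝 (Real.sqrt β)) := by
  have h1 := tendsto_of_bound hd
  have h2 : Tendsto (fun n : ℕ => Real.sqrt (2 * (((a n).choose 2 + b n : ℕ) : ℝ) / (n : ℝ) ^ 2))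
      atTop (𝓝 (Real.sqrt β)) := (Real.continuous_sqrt.tendsto β).comp h1
  have h3 : Tendsto (fun n : ℕ => (1:ℝ) / (n : ℝ)) atTop (𝓝 0) :=
    tendsto_natCast_atTop_atTop.const_div_atTop _
  have h4 : Tendsto (fun n : ℕ => Real.sqrt (2 * (((a n).choose 2 + b n : ℕ) : ℝ) / (n : ℝ) ^ 2)
      - 1 / (n : ℝ)) atTop (𝓝 (Real.sqrt β)) := by simpa using h2.sub h3
  have h5 : Tendsto (fun n : ℕ => Real.sqrt (2 * (((a n).choose 2 + b n : ℕ) : ℝ) / (n : ℝ) ^ 2)
      + 1 / (n : ℝ)) atTop (𝓝 (Real.sqrt β)) := by simpa using h2.add h3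
  have key : ∀ n : ℕ, 0 < n →
      Real.sqrt (2 * (((a n).choose 2 + b n : ℕ) : ℝ) / (n : ℝ) ^ 2) - 1 / (n : ℝ) ≤ (a n : ℝ) / n ∧
      (a n : ℝ) / n ≤ Real.sqrt (2 * (((a n).choose 2 + b n : ℕ) : ℝ) / (n : ℝ) ^ 2)
        + 1 / (n : ℝ) := by
    intro n hn
    have hn' : (0:ℝ) < n := by exact_mod_cast hn
    obtain ⟨hb, hc⟩ := h n hn
    have a1 : (1:ℝ) ≤ a n := by exact_mod_cast (by omega : 1 ≤ a n)
    have a3 : (b n:ℝ) + 1 ≤ a n := by exact_mod_cast hb
    have a4 : (0:ℝ) ≤ b n := by positivity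
    rw [Real.sqrt_div' _ (by positivity), Real.sqrt_sq hn'.le, ← sub_div, ← add_div]
    push_cast
    rw [Nat.cast_choose_two ℝ (a n)]
    constructor
    · apply div_le_div_of_nonneg_right _ hn'.le
      rw [sub_le_iff_le_add]
      apply Real.sqrt_le_iff.2
      constructor
      · positivity
      · nlinarith
    · apply div_le_div_of_nonneg_right _ hn'.le
      rw [← sub_le_iff_le_add]
      apply Real.le_sqrt_of_sq_le
      nlinarith
  refine tendsto_of_tendsto_of_tendsto_of_le_of_le' h4 h5 ?_ ?_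
  · filter_upwards [eventually_gt_atTop 0] with n hn
    exact (key n hn).1
  · filter_upwards [eventually_gt_atTop 0] with n hn
    exact (key n hn).2

lemma clQ_tendsto {s : ℝ} (hs : s ≤ 1) {a : ℕ → ℕ}
    (h : Tendsto (fun n : ℕ => ((a n : ℕ) : ℝ) / n) atTop (𝓝 s)) (c : Cls) :
    Tendsto (fun n : ℕ => cnt (clQ n (a n)) c / (n : ℝ)) atTop (𝓝 (wts 0 (1 - s) s c)) := by
  have h1 : Tendsto (fun n : ℕ => ((min (a n) n : ℕ) : ℝ) / n) atTop (𝓝 s) := by
    have h2 : Tendsto (fun n : ℕ => min (((a n : ℕ) : ℝ) / n) 1) atTop (𝓝 (min s 1)) :=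
      h.min tendsto_const_nhds
    rw [min_eq_left hs] at h2
    refine h2.congr' ?_
    filter_upwards [eventually_gt_atTop 0] with n hn
    have hn' : (0:ℝ) < n := by exact_mod_cast hn
    rw [Nat.cast_min, ← min_div_div_right hn'.le, div_self hn'.ne']
  cases c
  · simp only [clQ_Y, wts]; exact h1
  · simp only [clQ_R, wts, zero_div]; exact tendsto_const_nhds
  · simp only [clQ_B, wts]
    refine (h1.const_sub 1).congr' ?_
    filter_upwards [eventually_gt_atTop 0] with n hn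
    have hn' : (n:ℝ) ≠ 0 := by positivity
    field_simp

theorem qc_hom (G : SimpleGraph V) {β : ℝ} (h1 : β ≤ 1) {a b : ℕ → ℕ}
    (h : IsQCSeq a b) (hd : ∃ C : ℝ, ∀ n : ℕ, 0 < n →
        |2 * (((a n).choose 2 + b n : ℕ) : ℝ) / (n : ℝ) ^ 2 - β| ≤ C / n) :
    Tendsto (fun n : ℕ => ((HM G (quasiClique n (a n) (b n))).card : ℝ) /
      (n : ℝ) ^ Fintype.card V) atTop (𝓝 (tval G (csize β 1))) := by
  have hw : csize β 1 = wts 0 (1 - Real.sqrt β) (Real.sqrt β) := by
    funext c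
    cases c
    · rw [csize_Y]; simp [wts]
    · rw [csize_R]; simp [wts]
    · rw [csize_B]; simp [wts]
  rw [hw]
  have hs : Real.sqrt β ≤ 1 := by
    rw [Real.sqrt_le_one]; exact h1
  have h2 := qc_a_tendsto h hd
  have h3 : Tendsto (fun n : ℕ => ((a n + 1 : ℕ) : ℝ) / n) atTop (𝓝 (Real.sqrt β)) := by
    have h4 : Tendsto (fun n : ℕ => (1:ℝ) / (n : ℝ)) atTop (𝓝 0) :=
      tendsto_natCast_atTop_atTop.const_div_atTop _
    have h5 := h2.add h4
    rw [add_zero] at h5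
    refine h5.congr' ?_
    filter_upwards [eventually_gt_atTop 0] with n hn
    push_cast
    rw [add_div]
  have k1 := class_tendsto G (fun n => clQ n (a n)) (clQ_tendsto hs h2)
  have k2 := class_tendsto G (fun n => clQ n (a n + 1)) (clQ_tendsto (a := fun n => a n + 1) hs h3)
  refine tendsto_of_tendsto_of_tendsto_of_le_of_le' k1 k2 ?_ ?_
  · filter_upwards [eventually_gt_atTop 0] with n hn
    apply div_le_div_of_nonneg_right _ (by positivity)
    exact_mod_cast card_le_card (HM_mono (G := G) (qc_lower n (a n) (b n)))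
  · filter_upwards [eventually_gt_atTop 0] with n hn
    apply div_le_div_of_nonneg_right _ (by positivity)
    exact_mod_cast card_le_card (HM_mono (G := G) (qc_upper n (a n) (b n) (h n hn).1))

/-- every number of edges is that of a quasi-clique -/
lemma exists_ab (e : ℕ) : ∃ a b : ℕ, b < a ∧ a.choose 2 + b = e := by
  induction e with
  | zero => exact ⟨1, 0, by norm_num, by simp⟩
  | succ e ih =>
    obtain ⟨a, b, h1, h2⟩ := ih
    by_cases hb : b + 1 < a
    · exact ⟨a, b + 1, hb, by omega⟩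
    · refine ⟨a + 1, 0, by omega, ?_⟩
      have h3 : (a + 1).choose 2 = a.choose 1 + a.choose 2 := Nat.choose_succ_succ a 1
      rw [Nat.choose_one_right] at h3
      omega

end Pool.Agent.X297.G6
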